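import Pool.Agent.N822.TZ.Stm

/-! # TZ/TOEP: a Toeplitz sequence with orbit closure `Kp` -/

set_option autoImplicit false

open Set Topology MeasureTheory Filter Pool.Agent.N822.TZ Pool.Agent.N822.TZ.Symb

namespace N861.TZ

/-- the phases -/
noncomputable def c : ℕ → ℤ
  | 0 => 0
  | n + 1 => c n + if Odd n then 2 ^ kk n else 0

lemma c_comp : Comp c := by
  intro n
  rw [c]
  split_ifs <;> simp

lemma c_nonneg (n : ℕ) : 0 ≤ c n := by
  induction n with
  | zero => rw [c]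
  | succ n ih =>
    rw [c]
    split_ifs
    · positivity
    · linarith

lemma pow_step (n : ℕ) : (2 : ℤ) * 2 ^ kk n ≤ 2 ^ kk (n + 1) := by
  rw [← pow_succ']
  exact pow_le_pow_right₀ (by norm_num) (kk_lt n)

lemma c_lt (n : ℕ) : c n < 2 ^ kk n := by
  induction n with
  | zero => rw [c, kk_zero]; norm_num
  | succ n ih =>
    rw [c]
    have h1 := pow_step n
    have h2 : (0 : ℤ) < 2 ^ kk n := by positivity
    split_ifs <;> linarith

lemma exists_level (h : S_HH2) (k : ℤ) : ∃ n, rr c (n + 1) k < ee n := by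
  obtain ⟨N, hN⟩ : ∃ N : ℕ, |k| ≤ N := ⟨k.natAbs, by rw [Int.abs_eq_natAbs]⟩
  have h1 : c (2 * N + 2 + 1) = c (2 * N + 2) := by
    rw [c, if_neg, add_zero]
    rw [Nat.not_odd_iff_even]
    exact ⟨N + 1, by ring⟩
  have h2 : (2 : ℤ) ^ kk (2 * N + 1) ≤ c (2 * N + 2) := by
    have : c (2 * N + 2) = c (2 * N + 1) + 2 ^ kk (2 * N + 1) := by
      rw [c, if_pos]
      exact ⟨N, by ring⟩
    rw [this]
    linarith [c_nonneg (2 * N + 1)]
  have h3 := c_lt (2 * N + 2)
  have h4 : (N : ℤ) ≤ 2 ^ kk (2 * N + 1) := by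
    have h5 : N < 2 ^ N := Nat.lt_two_pow_self
    have h6 : 2 ^ N ≤ 2 ^ kk (2 * N + 1) :=
      Nat.pow_le_pow_right (by norm_num) (le_trans (by omega) (le_kk (2 * N + 1)))
    exact_mod_cast h5.le.trans h6
  have h5 : (2 : ℤ) ^ kk (2 * N + 1) ≤ 2 ^ kk (2 * N + 2) :=
    pow_le_pow_right₀ (by norm_num) (kk_lt _).le
  have hk := abs_le.1 hN
  have h6 : (ee (2 * N + 2) : ℤ) = hh (2 * N + 2) * 2 ^ kk (2 * N + 2) := by
    rw [ee]; push_cast; ring
  have h7 : (2 : ℤ) * 2 ^ kk (2 * N + 2) ≤ ee (2 * N + 2) := by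
    rw [h6]
    have h8 : (2 : ℤ) ≤ hh (2 * N + 2) := by exact_mod_cast h (2 * N + 2)
    have h9 : (0 : ℤ) < 2 ^ kk (2 * N + 2) := by positivity
    exact mul_le_mul_of_nonneg_right h8 h9.le
  have h8 : (ee (2 * N + 2) : ℤ) ≤ 2 ^ kk (2 * N + 2 + 1) := by
    exact_mod_cast ee_le (2 * N + 2)
  refine ⟨2 * N + 2, ?_⟩
  have h9 : ((rr c (2 * N + 2 + 1) k : ℕ) : ℤ) < ee (2 * N + 2) := by
    rw [rr_cast, h1, Int.emod_eq_of_lt (by linarith) (by linarith)]
    linarith
  exact_mod_cast h9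

lemma rr_per' (n : ℕ) (a k : ℤ) : rr c n (a + k * 2 ^ kk n) = rr c n a := by
  rw [rr, rr]
  congr 1
  rw [← add_assoc, Int.add_mul_emod_self_right]

theorem t_TOEP (h : S_HH2) : S_TOEP := by
  refine ⟨xs c (fun _ => false), xs_mem c_comp _, ?_, ?_⟩
  · intro n
    obtain ⟨m, hm⟩ := exists_level h n
    refine ⟨2 ^ kk (m + 1), ?_, fun k => ?_⟩
    · have : (0 : ℤ) < 2 ^ kk (m + 1) := by positivity
      linarith
    · have h1 : rr c (m + 1) (n + k * 2 ^ kk (m + 1)) < ee m := by rw [rr_per']; exact hm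
      rw [xs_header c_comp _ h1, xs_header c_comp _ hm, rr_per']
  · apply Subset.antisymm
    · apply closure_minimal _ isClosed_Kp
      rintro y ⟨k, rfl⟩ a m
      obtain ⟨n, w, p, h1, h2, h3⟩ := xs_mem c_comp (fun _ => false) (a + k) m
      refine ⟨n, w, p, h1, h2, fun i hi => ?_⟩
      rw [← h3 i hi]
      show xs c (fun _ => false) (a + i + k) = xs c (fun _ => false) (a + k + i)
      rw [add_right_comm]
    · intro y hy
      rw [mem_closure_iff]
      intro o ho hyo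
      obtain ⟨I, u, hu, hI⟩ := isOpen_pi_iff.1 ho y hyo
      obtain ⟨N, hN⟩ : ∃ N : ℕ, ∀ i ∈ I, |i| ≤ N := by
        refine ⟨I.sup (fun i => i.natAbs), fun i hi => ?_⟩
        rw [Int.abs_eq_natAbs]
        exact_mod_cast Finset.le_sup (f := fun i : ℤ => i.natAbs) hi
      obtain ⟨k, hk⟩ := Kp_min (xs_mem c_comp (fun _ => false)) hy (-(N : ℤ)) (2 * N + 1)
      refine ⟨fun n => xs c (fun _ => false) (n + (k + N)), hI ?_, ⟨k + N, rfl⟩⟩
      intro n hn
      have h1 := abs_le.1 (hN n (by simpa using hn))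
      have h2 := hk (n + N).toNat (by omega)
      have h3 : (((n + N).toNat : ℕ) : ℤ) = n + N := Int.toNat_of_nonneg (by linarith)
      rw [h3] at h2
      have h4 : k + (n + N) = n + (k + N) := by ring
      have h5 : -(N : ℤ) + (n + N) = n := by ring
      rw [h4, h5] at h2
      show xs c (fun _ => false) (n + (k + N)) ∈ u n
      rw [h2]
      exact (hu n (by simpa using hn)).2

end N861.TZ
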